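import Mathlib

set_option autoImplicit false

open Polynomial

namespace Pool.Agent.Results.MP_b61545_an.TwoCriticalValues

/-- The number of critical values of `p`: the cardinality of `p((p')⁻¹(0))`. -/
noncomputable def cv (p : ℂ[X]) : ℕ :=
  Set.ncard ((fun z => p.eval z) '' {z : ℂ | (derivative p).eval z = 0})

/-- The largest multiplier modulus `Λ(p)`: the supremum (a maximum over a finite set) of `|p'(ξ)|`
over the fixed points `ξ` of `p`. -/
noncomputable def Lam (p : ℂ[X]) : ℝ :=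
  sSup {r : ℝ | ∃ ξ : ℂ, p.eval ξ = ξ ∧ r = ‖(derivative p).eval ξ‖}

/-- An antiderivative of `(1 - X ^ 2) ^ n`. -/
noncomputable def P (n : ℕ) : ℂ[X] :=
  ∑ k ∈ Finset.range (n + 1), C ((-1 : ℂ) ^ k * (n.choose k : ℂ) / (2 * k + 1)) * X ^ (2 * k + 1)

lemma derivative_P (n : ℕ) : derivative (P n) = (1 - X ^ 2) ^ n := by
  rw [P, derivative_sum, sub_eq_neg_add, add_pow]
  apply Finset.sum_congr rfl
  intro k _
  rw [derivative_C_mul, derivative_X_pow]
  have h : ((2 : ℂ) * k + 1) ≠ 0 := by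
    exact_mod_cast (by omega : 2 * k + 1 ≠ 0)
  have h2 : C ((-1 : ℂ) ^ k * (n.choose k : ℂ) / (2 * k + 1)) * (C ((2 * k + 1 : ℕ) : ℂ) * X ^ (2 * k + 1 - 1))
      = C ((-1 : ℂ) ^ k * (n.choose k : ℂ)) * X ^ (2 * k) := by
    rw [← mul_assoc, ← C_mul]
    congr 2
    push_cast
    field_simp
  rw [h2]
  simp only [one_pow, mul_one, C_mul, C_pow, C_neg, C_1]
  rw [neg_pow (X ^ 2 : ℂ[X]) k, ← pow_mul]
  simp only [map_natCast]
  ring

lemma eval_neg (n : ℕ) (z : ℂ) : (P n).eval (-z) = -(P n).eval z := by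
  simp only [P, eval_finsetSum, eval_mul, eval_C, eval_pow, eval_X]
  rw [← Finset.sum_neg_distrib]
  apply Finset.sum_congr rfl
  intro k _
  rw [neg_pow z, pow_succ, pow_mul]
  simp

lemma eval_conj (n : ℕ) (z : ℂ) : (P n).eval ((starRingEnd ℂ) z) = (starRingEnd ℂ) ((P n).eval z) := by
  simp only [P, eval_finsetSum, eval_mul, eval_C, eval_pow, eval_X, map_sum, map_mul, map_pow]
  apply Finset.sum_congr rfl
  intro k _
  congr 1
  simp [map_div₀, Complex.conj_ofNat]

lemma hasDerivAt_P (n : ℕ) (z : ℂ) : HasDerivAt (fun z => (P n).eval z) ((1 - z ^ 2) ^ n) z := by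
  have := (P n).hasDerivAt z
  rw [derivative_P] at this
  simpa using this

lemma eval_zero (n : ℕ) : (P n).eval 0 = 0 := by
  have := eval_neg n 0
  simp only [neg_zero] at this
  linear_combination this / 2

/-- the value of `P` at `1`, as a real integral -/
lemma eval_one (n : ℕ) : ∃ J : ℝ, (P n).eval 1 = (J : ℂ) ∧ 1 / (n + 1 : ℝ) ≤ J ∧ J ≤ 1 := by
  refine ⟨∫ t in (0 : ℝ)..1, (1 - t ^ 2) ^ n, ?_, ?_, ?_⟩
  · have h : ∀ t ∈ Set.uIcc (0 : ℝ) 1,
        HasDerivAt (fun t : ℝ => (P n).eval (t : ℂ)) ((((1 - t ^ 2) ^ n : ℝ)) : ℂ) t := by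
      intro t _
      have := (hasDerivAt_P n (t : ℂ)).comp_ofReal
      push_cast
      exact this
    have h2 := intervalIntegral.integral_eq_sub_of_hasDerivAt h
      (by apply Continuous.intervalIntegrable; fun_prop)
    rw [intervalIntegral.integral_ofReal] at h2
    rw [h2]
    simp [eval_zero]
  · have h3 : ∫ t in (0 : ℝ)..1, (1 - t) ^ n = 1 / (n + 1 : ℝ) := by
      rw [intervalIntegral.integral_comp_sub_left (fun t => t ^ n) 1]
      simp
    rw [← h3]
    apply intervalIntegral.integral_mono_on (by norm_num)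
    · apply Continuous.intervalIntegrable; fun_prop
    · apply Continuous.intervalIntegrable; fun_prop
    · intro t ht
      apply pow_le_pow_left₀ (by linarith [ht.2])
      nlinarith [ht.1, ht.2]
  · have h3 : ∫ t in (0 : ℝ)..1, (1 : ℝ) = 1 := by simp
    conv_rhs => rw [← h3]
    apply intervalIntegral.integral_mono_on (by norm_num)
    · apply Continuous.intervalIntegrable; fun_prop
    · apply Continuous.intervalIntegrable; fun_prop
    · intro t ht
      apply pow_le_one₀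
      · nlinarith [ht.1, ht.2]
      · nlinarith [ht.1, ht.2]

/-- pointwise lower bound used in the integral estimate -/
lemma re_lower {γ : ℂ} (hre : 0 ≤ γ.re) (him : 0 ≤ γ.im) (h0 : γ ≠ 0) {a : ℝ} (ha : 0 < a) :
    (1 / a) * (3 / 2 - ‖γ‖ ^ 2 / (2 * a ^ 2)) ≤ ((1 + Complex.I) / γ).re := by
  have hg : 0 < ‖γ‖ := norm_pos_iff.mpr h0
  have h1 : ((1 + Complex.I) / γ).re = (γ.re + γ.im) / ‖γ‖ ^ 2 := by
    rw [Complex.div_re, Complex.normSq_eq_norm_sq]
    simp
    ring
  have h2 : ‖γ‖ ≤ γ.re + γ.im := by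
    have h3 : ‖γ‖ ^ 2 = γ.re ^ 2 + γ.im ^ 2 := by
      rw [← Complex.normSq_eq_norm_sq, Complex.normSq_apply]; ring
    apply le_of_sq_le_sq _ (by positivity)
    rw [h3]
    nlinarith
  rw [h1]
  have h4 : 1 / ‖γ‖ ≤ (γ.re + γ.im) / ‖γ‖ ^ 2 := by
    rw [div_le_div_iff₀ hg (by positivity)]
    nlinarith
  refine le_trans ?_ h4
  set g := ‖γ‖
  have h5 : (1 / a) * (3 / 2 - g ^ 2 / (2 * a ^ 2)) = (3 * a ^ 2 - g ^ 2) / (2 * a ^ 3) := by
    field_simp
  rw [h5, div_le_div_iff₀ (by positivity) hg]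
  nlinarith [mul_nonneg (sq_nonneg (a - g)) (by positivity : (0 : ℝ) ≤ 2 * a + g)]
where
  le_of_sq_le_sq {a b : ℝ} (h : a ^ 2 ≤ b ^ 2) (hb : 0 ≤ b) : a ≤ b := by
    exact abs_le_of_sq_le_sq' h hb |>.2

/-- The main estimate. -/
lemma estimate {n : ℕ} {ξ : ℂ} {J : ℝ} (hJ : (P n).eval 1 = (J : ℂ)) (hx : 0 < ξ.re)
    (hy : 0 ≤ ξ.im) (hfix : (P n).eval ξ = J * ξ) (h1' : ξ ≠ 1) (hJ0 : 0 < J) :
    ‖1 - ξ ^ 2‖ ^ n / J * ‖1 + ξ‖ ≤
      Real.sqrt 2 * (2 * (n + 1)) * Real.sqrt (‖ξ‖ ^ 2 + 1 / (n + 2)) := by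
  set W : ℂ := 1 - ξ ^ 2 with hW
  set γ : ℝ → ℂ := fun s => (1 - (s : ℂ) * W) ^ (2⁻¹ : ℂ) with hγ
  have hbase : ∀ s : ℝ, (1 - (s : ℂ) * W) = (1 - s : ℝ) + (s : ℝ) * ξ ^ 2 := by
    intro s; rw [hW]; push_cast; ring
  have him2 : (ξ ^ 2).im = 2 * ξ.re * ξ.im := by rw [sq, Complex.mul_im]; ring
  have hre2 : (ξ ^ 2).re = ξ.re ^ 2 - ξ.im ^ 2 := by rw [sq, Complex.mul_re]; ring
  have him : ∀ s : ℝ, (1 - (s : ℂ) * W).im = s * (2 * ξ.re * ξ.im) := by
    intro s; rw [hbase, Complex.add_im, Complex.ofReal_im, Complex.im_ofReal_mul, him2, zero_add]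
  have hre : ∀ s : ℝ, (1 - (s : ℂ) * W).re = (1 - s) + s * (ξ.re ^ 2 - ξ.im ^ 2) := by
    intro s; rw [hbase, Complex.add_re, Complex.ofReal_re, Complex.re_ofReal_mul, hre2]
  have hslit : ∀ s ∈ Set.Icc (0 : ℝ) 1, (1 - (s : ℂ) * W) ∈ Complex.slitPlane := by
    intro s hs
    rw [Complex.mem_slitPlane_iff]
    by_cases h0 : s * (2 * ξ.re * ξ.im) = 0
    · left
      rw [hre]
      rcases mul_eq_zero.mp h0 with h | h
      · rw [h]; norm_num
      · have : ξ.im = 0 := by
          rcases mul_eq_zero.mp h with h | h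
          · nlinarith
          · exact h
        rw [this]
        rcases eq_or_lt_of_le hs.1 with h | h
        · rw [← h]; norm_num
        · nlinarith [hs.2, mul_pos h (pow_pos hx 2)]
    · right
      rw [him]; exact h0
  have hne : ∀ s ∈ Set.Icc (0 : ℝ) 1, (1 - (s : ℂ) * W) ≠ 0 := fun s hs =>
    Complex.slitPlane_ne_zero (hslit s hs)
  have hγ2 : ∀ s : ℝ, γ s ^ 2 = 1 - (s : ℂ) * W := by
    intro s
    have := Complex.cpow_nat_inv_pow (1 - (s : ℂ) * W) (n := 2) two_ne_zero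
    simpa [hγ] using this
  have hγ0 : ∀ s ∈ Set.Icc (0 : ℝ) 1, γ s ≠ 0 := by
    intro s hs h0
    apply hne s hs
    rw [← hγ2, h0]; simp
  have hγre : ∀ s : ℝ, 0 ≤ (γ s).re := by
    intro s
    simp only [hγ]
    rw [Complex.cpow_inv_two_re]
    exact Real.sqrt_nonneg _
  have hγim : ∀ s ∈ Set.Icc (0 : ℝ) 1, 0 ≤ (γ s).im := by
    intro s hs
    simp only [hγ]
    rw [Complex.cpow_inv_two_im_eq_sqrt]
    · exact Real.sqrt_nonneg _
    · rw [him]
      have := hs.1
      positivity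
  have hγnorm : ∀ s ∈ Set.Icc (0 : ℝ) 1, ‖γ s‖ ^ 2 ≤ (1 - s) + s * ‖ξ‖ ^ 2 := by
    intro s hs
    rw [← norm_pow, hγ2, hbase]
    refine (norm_add_le _ _).trans ?_
    rw [norm_mul, Complex.norm_real, Complex.norm_real, norm_pow, Real.norm_of_nonneg hs.1,
      Real.norm_of_nonneg (by linarith [hs.2])]
  have hγderiv : ∀ s ∈ Set.Icc (0 : ℝ) 1, HasDerivAt γ (-W / (2 * γ s)) s := by
    intro s hs
    have h1 : HasDerivAt (fun w : ℂ => 1 - w * W) (-W) (s : ℂ) := by
      have := ((hasDerivAt_id (s : ℂ)).mul_const W).const_sub 1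
      simpa using this
    have h2 := (h1.cpow_const (c := 2⁻¹) (hslit s hs)).comp_ofReal
    have h3 : (2⁻¹ : ℂ) * (1 - (s : ℂ) * W) ^ ((2⁻¹ : ℂ) - 1) * -W = -W / (2 * γ s) := by
      have h4 := hγ0 s hs
      have h5 : (1 - (s : ℂ) * W) ^ ((2⁻¹ : ℂ) - 1) = γ s / (γ s) ^ 2 := by
        rw [Complex.cpow_sub _ _ (hne s hs), Complex.cpow_one, hγ2 s]
      rw [h5]
      field_simp
    rw [h3] at h2
    exact h2
  have hγcont : ContinuousOn γ (Set.Icc 0 1) := fun s hs =>
    (hγderiv s hs).continuousAt.continuousWithinAt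
  have hγ_one : γ 1 = ξ := by
    have h1 : γ 1 ^ 2 = ξ ^ 2 := by rw [hγ2, hW]; push_cast; ring
    rcases sq_eq_sq_iff_eq_or_eq_neg.mp h1 with h | h
    · exact h
    · have h2 := hγre 1
      rw [h] at h2
      simp at h2
      linarith
  have hγ_zero : γ 0 = 1 := by simp [hγ]
  -- the fundamental theorem of calculus along `γ`
  have hftc : ∫ s in (0 : ℝ)..1, (s : ℂ) ^ n / (2 * γ s) = J * (1 - ξ) / W ^ (n + 1) := by
    have h1 : ∀ s ∈ Set.uIcc (0 : ℝ) 1, HasDerivAt (fun s : ℝ => (P n).eval (γ s))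
        (-(W ^ (n + 1)) * ((s : ℂ) ^ n / (2 * γ s))) s := by
      intro s hs
      rw [Set.uIcc_of_le zero_le_one] at hs
      have h2 := (hasDerivAt_P n (γ s)).scomp s (hγderiv s hs)
      have h3 : (-W / (2 * γ s)) • ((1 - γ s ^ 2) ^ n) = -(W ^ (n + 1)) * ((s : ℂ) ^ n / (2 * γ s)) := by
        rw [hγ2, smul_eq_mul]
        have h4 := hγ0 s hs
        have h5 : (1 : ℂ) - (1 - (s : ℂ) * W) = s * W := by ring
        rw [h5, mul_pow, pow_succ]
        field_simp
      rw [h3] at h2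
      exact h2
    have hint : ContinuousOn (fun s : ℝ => (s : ℂ) ^ n / (2 * γ s)) (Set.uIcc 0 1) := by
      rw [Set.uIcc_of_le zero_le_one]
      apply ContinuousOn.div
      · fun_prop
      · exact continuousOn_const.mul hγcont
      · intro s hs
        exact mul_ne_zero two_ne_zero (hγ0 s hs)
    have h2 := intervalIntegral.integral_eq_sub_of_hasDerivAt h1
      (hint.intervalIntegrable.const_mul _)
    rw [intervalIntegral.integral_const_mul, hγ_one, hγ_zero, hfix, hJ] at h2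
    have hW0 : W ≠ 0 := by
      intro h0
      have h3 : (ξ - 1) * (ξ + 1) = 0 := by linear_combination -h0
      rcases mul_eq_zero.mp h3 with h | h
      · exact h1' (by linear_combination h)
      · have h5 : ξ.re = -1 := by
          have := congrArg Complex.re h
          simp at this; linarith
        linarith
    rw [eq_div_iff (pow_ne_zero _ hW0)]
    linear_combination -h2
  have hW0 : W ≠ 0 := by
    intro h0
    have h3 : (ξ - 1) * (ξ + 1) = 0 := by linear_combination -h0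
    rcases mul_eq_zero.mp h3 with h | h
    · exact h1' (by linear_combination h)
    · have h5 : ξ.re = -1 := by
        have := congrArg Complex.re h
        simp at this; linarith
      linarith
  set R : ℝ := ‖ξ‖ ^ 2 with hR
  have hR0 : 0 ≤ R := by positivity
  set a : ℝ := Real.sqrt (R + 1 / (n + 2)) with ha
  have ha0 : 0 < a := Real.sqrt_pos.mpr (by positivity)
  have ha2 : a ^ 2 = R + 1 / (n + 2) := Real.sq_sqrt (by positivity)
  set f : ℝ → ℂ := fun s => (s : ℂ) ^ n / (2 * γ s) with hf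
  have hfc : ContinuousOn f (Set.uIcc 0 1) := by
    rw [Set.uIcc_of_le zero_le_one]
    apply ContinuousOn.div
    · fun_prop
    · exact continuousOn_const.mul hγcont
    · intro s hs
      exact mul_ne_zero two_ne_zero (hγ0 s hs)
  have hlow : 1 / (2 * a * (n + 1)) ≤ ((1 + Complex.I) * ∫ s in (0 : ℝ)..1, f s).re := by
    rw [← intervalIntegral.integral_const_mul]
    have h1 : (∫ s in (0 : ℝ)..1, (1 + Complex.I) * f s).re =
        ∫ s in (0 : ℝ)..1, ((1 + Complex.I) * f s).re := by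
      have := Complex.reCLM.intervalIntegral_comp_comm
        (hfc.intervalIntegrable.const_mul (1 + Complex.I) : IntervalIntegrable
          (fun s => (1 + Complex.I) * f s) MeasureTheory.volume 0 1)
      simpa using this.symm
    rw [h1]
    set c0 : ℝ := (1 / (2 * a)) * (3 / 2 - 1 / (2 * a ^ 2)) with hc0
    set c1 : ℝ := (1 / (2 * a)) * (-(R - 1) / (2 * a ^ 2)) with hc1
    have h2 : ∫ s in (0 : ℝ)..1, (c0 * s ^ n + c1 * s ^ (n + 1)) ≤
        ∫ s in (0 : ℝ)..1, ((1 + Complex.I) * f s).re := by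
      apply intervalIntegral.integral_mono_on (by norm_num)
      · apply Continuous.intervalIntegrable; fun_prop
      · have h3 : ContinuousOn (fun s => (1 + Complex.I) * f s) (Set.uIcc 0 1) :=
          continuousOn_const.mul hfc
        exact (Complex.continuous_re.comp_continuousOn h3).intervalIntegrable
      · intro s hs
        have h3 := re_lower (hγre s) (hγim s hs) (hγ0 s hs) ha0
        have h4 := hγnorm s hs
        have h5 : ((1 + Complex.I) * f s).re = (s ^ n / 2) * ((1 + Complex.I) / γ s).re := by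
          have h6 : (1 + Complex.I) * f s = ((s ^ n / 2 : ℝ) : ℂ) * ((1 + Complex.I) / γ s) := by
            simp only [hf]
            push_cast
            have := hγ0 s hs
            field_simp
          rw [h6, Complex.re_ofReal_mul]
        rw [h5]
        have h6 : c0 * s ^ n + c1 * s ^ (n + 1) =
            (s ^ n / 2) * ((1 / a) * (3 / 2 - ((1 - s) + s * R) / (2 * a ^ 2))) := by
          rw [hc0, hc1]
          field_simp
          ring
        rw [h6]
        apply mul_le_mul_of_nonneg_left _ (by have := hs.1; positivity)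
        refine le_trans ?_ h3
        apply mul_le_mul_of_nonneg_left _ (by positivity)
        have : ‖γ s‖ ^ 2 / (2 * a ^ 2) ≤ ((1 - s) + s * R) / (2 * a ^ 2) := by
          gcongr
        linarith
    refine le_trans ?_ h2
    rw [intervalIntegral.integral_add, intervalIntegral.integral_const_mul,
      intervalIntegral.integral_const_mul, integral_pow, integral_pow]
    · have hn1 : (0 : ℝ) < n + 1 := by positivity
      have hn2 : (0 : ℝ) < n + 2 := by positivity
      have e1 : c0 * ((1 ^ (n + 1) - 0 ^ (n + 1)) / (n + 1)) +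
          c1 * ((1 ^ (n + 1 + 1) - 0 ^ (n + 1 + 1)) / (((n + 1 : ℕ) : ℝ) + 1)) =
          1 / (2 * a * (n + 1)) * (3 / 2 - (1 / (n + 2) + R * (n + 1) / (n + 2)) / (2 * a ^ 2)) := by
        rw [hc0, hc1]
        push_cast
        have : (n : ℝ) + 1 + 1 = n + 2 := by ring
        rw [this]
        simp only [one_pow, ne_eq, Nat.add_eq_zero_iff, one_ne_zero, and_false, not_false_eq_true,
          zero_pow, sub_zero]
        field_simp
        ring
      rw [e1]
      have e2 : 1 / (n + 2) + R * (n + 1) / (n + 2) ≤ a ^ 2 := by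
        rw [ha2]
        have : R * (n + 1) / (n + 2) ≤ R := by
          rw [div_le_iff₀ hn2]; nlinarith
        linarith
      have e3 : (1 / (n + 2) + R * (n + 1) / (n + 2)) / (2 * a ^ 2) ≤ 1 / 2 := by
        rw [div_le_iff₀ (by positivity)]; linarith
      have e4 : 0 < 1 / (2 * a * (n + 1)) := by positivity
      nlinarith
    · apply Continuous.intervalIntegrable; fun_prop
    · apply Continuous.intervalIntegrable; fun_prop
  rw [hftc] at hlow
  have hup : ((1 + Complex.I) * (J * (1 - ξ) / W ^ (n + 1))).re ≤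
      Real.sqrt 2 * (J / (‖W‖ ^ n * ‖1 + ξ‖)) := by
    refine (Complex.re_le_norm _).trans (le_of_eq ?_)
    rw [norm_mul, norm_div, norm_mul, norm_pow, Complex.norm_real, Real.norm_of_nonneg hJ0.le]
    have e1 : ‖(1 : ℂ) + Complex.I‖ = Real.sqrt 2 := by
      rw [Complex.norm_def]
      congr 1
      simp [Complex.normSq_apply]
      norm_num
    have e2 : ‖W‖ = ‖1 - ξ‖ * ‖1 + ξ‖ := by
      rw [← norm_mul, hW]; congr 1; ring
    have e3 : ‖1 - ξ‖ ≠ 0 := by
      rw [norm_ne_zero_iff, sub_ne_zero]; exact fun h => h1' h.symm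
    have e4 : ‖1 + ξ‖ ≠ 0 := by
      intro h0
      apply hW0
      rw [← norm_eq_zero, e2, h0, mul_zero]
    rw [e1]
    congr 1
    rw [pow_succ]
    have e5 : ‖W‖ ≠ 0 := norm_ne_zero_iff.mpr hW0
    have e6 : ‖W‖ ^ n * ‖W‖ = ‖W‖ ^ n * (‖1 - ξ‖ * ‖1 + ξ‖) := by rw [← e2]
    rw [e6]
    field_simp
  have hfin := hlow.trans hup
  have e4 : 0 < ‖1 + ξ‖ := by
    rw [norm_pos_iff]
    intro h0
    have := congrArg Complex.re h0
    simp at this
    linarith
  have e5 : 0 < ‖W‖ ^ n := by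
    have := norm_pos_iff.mpr hW0
    positivity
  rw [← mul_div_assoc, div_le_div_iff₀ (by positivity) (by positivity)] at hfin
  rw [div_mul_eq_mul_div, div_le_iff₀ hJ0]
  linarith

lemma pow_bound (n : ℕ) (hn : 10 ≤ n) : (8 * (n + 1) ^ 2 : ℝ) ≤ 2 ^ n := by
  have h : 8 * (n + 1) ^ 2 ≤ 2 ^ n := by
    induction n, hn using Nat.le_induction with
    | base => norm_num
    | succ k hk ih =>
      have : 8 * (k + 1 + 1) ^ 2 ≤ 2 * (8 * (k + 1) ^ 2) := by nlinarith
      calc 8 * (k + 1 + 1) ^ 2 ≤ 2 * (8 * (k + 1) ^ 2) := this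
        _ ≤ 2 * 2 ^ k := by omega
        _ = 2 ^ (k + 1) := by ring
  exact_mod_cast h

lemma alg {x R κ : ℝ} (hx : 0 < x) (hRx : x ^ 2 ≤ R)
    (hW : 1 - 4 * x ^ 2 + 2 * R + R ^ 2 ≤ 2) (hκ1 : κ ≤ 1 / 12) :
    2 * (R + κ) ≤ 4 / 5 * (1 + 2 * x + R) := by
  have hR2 : R ^ 2 - 2 * R - 1 ≤ 0 := by nlinarith
  have hR3 : R ≤ 5 / 2 := by nlinarith
  by_cases hRs : R ≤ 1 / 2
  · linarith
  · push Not at hRs
    have h5 : 6 / 5 * R - 19 / 30 ≤ 8 / 5 * x := by
      by_contra hcon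
      push Not at hcon
      have h6 : 0 ≤ 8 / 5 * x := by positivity
      have h7 : (8 / 5 * x) ^ 2 < (6 / 5 * R - 19 / 30) ^ 2 :=
        pow_lt_pow_left₀ hcon h6 (by norm_num)
      have h8 : 0 ≤ (R - 1 / 2) * (5 / 2 - R) := mul_nonneg (by linarith) (by linarith)
      nlinarith
    linarith

/-- The multiplier bound in the open first quadrant and on the positive real axis. -/
lemma bound_quadrant {n : ℕ} (hn : 10 ≤ n) {ξ : ℂ} {J : ℝ} (hJ : (P n).eval 1 = (J : ℂ))
    (hx : 0 < ξ.re) (hy : 0 ≤ ξ.im) (hfix : (P n).eval ξ = J * ξ) (hJ0 : 0 < J) (hJ1 : J ≤ 1) :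
    ‖1 - ξ ^ 2‖ ^ n / J < 19 / 20 * (2 * n + 1) := by
  by_cases h1 : ξ = 1
  · rw [h1]
    have : (1 : ℂ) - 1 ^ 2 = 0 := by ring
    rw [this, norm_zero, zero_pow (by omega), zero_div]
    positivity
  have hest := estimate hJ hx hy hfix h1 hJ0
  set m : ℝ := ‖1 - ξ ^ 2‖ ^ n / J with hm
  have hm0 : 0 ≤ m := by positivity
  set x : ℝ := ξ.re with hxdef
  set R : ℝ := ‖ξ‖ ^ 2 with hR
  have hR0 : 0 ≤ R := by positivity
  have hRxy : R = x ^ 2 + ξ.im ^ 2 := by
    rw [hR, ← Complex.normSq_eq_norm_sq, Complex.normSq_apply]; ring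
  have hRx : x ^ 2 ≤ R := by rw [hRxy]; nlinarith [sq_nonneg ξ.im]
  have h1ξ : ‖1 + ξ‖ ^ 2 = 1 + 2 * x + R := by
    rw [hRxy, ← Complex.normSq_eq_norm_sq, Complex.normSq_apply]
    simp
    ring
  have hWsq : ‖1 - ξ ^ 2‖ ^ 2 = 1 - 4 * x ^ 2 + 2 * R + R ^ 2 := by
    rw [hRxy, ← Complex.normSq_eq_norm_sq, Complex.normSq_apply]
    simp [pow_two]
    ring
  set κ : ℝ := 1 / (n + 2) with hκ
  have hnR : (10 : ℝ) ≤ n := by exact_mod_cast hn
  have hκ1 : κ ≤ 1 / 12 := by
    rw [hκ]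
    apply one_div_le_one_div_of_le <;> linarith
  have hκ0 : 0 ≤ κ := by positivity
  have hsq : m ^ 2 * (1 + 2 * x + R) ≤ 8 * (n + 1) ^ 2 * (R + κ) := by
    have h2 : (m * ‖1 + ξ‖) ^ 2 ≤ (Real.sqrt 2 * (2 * (n + 1)) * Real.sqrt (R + κ)) ^ 2 := by
      gcongr
    have e1 : Real.sqrt 2 ^ 2 = 2 := Real.sq_sqrt (by norm_num)
    have e2 : Real.sqrt (R + κ) ^ 2 = R + κ := Real.sq_sqrt (by positivity)
    rw [mul_pow, h1ξ, mul_pow, mul_pow, e1, e2] at h2
    linarith
  have hcrude : m ^ 2 ≤ 8 * (n + 1) ^ 2 := by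
    have h2 : m ^ 2 * (1 + 2 * x + R) ≤ 8 * (n + 1) ^ 2 * (1 + 2 * x + R) := by
      refine hsq.trans ?_
      apply mul_le_mul_of_nonneg_left _ (by positivity)
      linarith
    exact le_of_mul_le_mul_right h2 (by positivity)
  have hW2 : ‖1 - ξ ^ 2‖ ^ 2 ≤ 2 := by
    have h2 : ‖1 - ξ ^ 2‖ ^ n = m * J := by rw [hm]; field_simp
    have h3 : (‖1 - ξ ^ 2‖ ^ 2) ^ n ≤ 2 ^ n := by
      calc (‖1 - ξ ^ 2‖ ^ 2) ^ n = (‖1 - ξ ^ 2‖ ^ n) ^ 2 := by rw [← pow_mul, ← pow_mul, mul_comm]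
        _ = m ^ 2 * J ^ 2 := by rw [h2, mul_pow]
        _ ≤ m ^ 2 * 1 := by
            apply mul_le_mul_of_nonneg_left _ (by positivity)
            exact pow_le_one₀ hJ0.le hJ1
        _ ≤ 8 * (n + 1) ^ 2 := by rw [mul_one]; exact hcrude
        _ ≤ 2 ^ n := pow_bound n hn
    by_contra hcon
    push Not at hcon
    have := pow_lt_pow_left₀ hcon (by norm_num) (by omega : n ≠ 0)
    linarith
  rw [hWsq] at hW2
  have hmain := alg hx hRx hW2 hκ1
  have hfin : m ^ 2 ≤ 16 / 5 * (n + 1) ^ 2 := by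
    have h2 : m ^ 2 * (1 + 2 * x + R) ≤ 16 / 5 * (n + 1) ^ 2 * (1 + 2 * x + R) := by
      refine hsq.trans ?_
      have h3 := mul_le_mul_of_nonneg_left hmain (by positivity : (0 : ℝ) ≤ 4 * (n + 1) ^ 2)
      linarith
    exact le_of_mul_le_mul_right h2 (by positivity)
  by_contra hcon
  push Not at hcon
  have h8 : (19 / 20 * (2 * (n : ℝ) + 1)) ^ 2 ≤ m ^ 2 := by
    apply pow_le_pow_left₀ (by positivity) hcon
  have h9 := h8.trans hfin
  have h10 : (0 : ℝ) ≤ ((n : ℝ) - 10) * n := mul_nonneg (by linarith) (by linarith)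
  linarith

/-- There is no fixed point on the imaginary axis except `0`. -/
lemma imaginary {n : ℕ} (hn : 1 ≤ n) {ξ : ℂ} {J : ℝ}
    (hx : ξ.re = 0) (hy : 0 ≤ ξ.im) (hfix : (P n).eval ξ = J * ξ) (hJ1 : J ≤ 1) : ξ = 0 := by
  by_contra hne
  have hy0 : 0 < ξ.im := by
    rcases eq_or_lt_of_le hy with h | h
    · exfalso; apply hne; apply Complex.ext <;> simp [hx, ← h]
    · exact h
  set y : ℝ := ξ.im with hydef
  have hξ : ξ = (y : ℂ) * Complex.I := by apply Complex.ext <;> simp [hx, hydef]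
  have h1 : ∀ t ∈ Set.uIcc (0 : ℝ) y, HasDerivAt (fun t : ℝ => (P n).eval ((t : ℂ) * Complex.I))
      ((((1 + t ^ 2) ^ n : ℝ) : ℂ) * Complex.I) t := by
    intro t _
    have h2 : HasDerivAt (fun w : ℂ => w * Complex.I) Complex.I (t : ℂ) := by
      simpa using (hasDerivAt_id (t : ℂ)).mul_const Complex.I
    have h3 := ((hasDerivAt_P n ((t : ℂ) * Complex.I)).comp (t : ℂ) h2).comp_ofReal
    have h4 : (1 - ((t : ℂ) * Complex.I) ^ 2) ^ n * Complex.I =
        (((1 + t ^ 2) ^ n : ℝ) : ℂ) * Complex.I := by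
      rw [mul_pow, Complex.I_sq]; push_cast; ring
    rw [h4] at h3
    exact h3
  have h2 := intervalIntegral.integral_eq_sub_of_hasDerivAt h1
    (by apply Continuous.intervalIntegrable; fun_prop)
  rw [intervalIntegral.integral_mul_const, intervalIntegral.integral_ofReal, ← hξ, hfix] at h2
  simp only [Complex.ofReal_zero, zero_mul, eval_zero, sub_zero] at h2
  rw [hξ, ← mul_assoc] at h2
  have h3 := mul_right_cancel₀ Complex.I_ne_zero h2
  have h4 : ∫ t in (0 : ℝ)..y, (1 + t ^ 2) ^ n = J * y := by exact_mod_cast h3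
  have h5 : ∫ t in (0 : ℝ)..y, (1 + t ^ 2 : ℝ) ≤ ∫ t in (0 : ℝ)..y, (1 + t ^ 2) ^ n := by
    apply intervalIntegral.integral_mono_on hy0.le
    · apply Continuous.intervalIntegrable; fun_prop
    · apply Continuous.intervalIntegrable; fun_prop
    · intro t _
      exact le_self_pow₀ (by nlinarith [sq_nonneg t]) (by omega)
  rw [h4] at h5
  have h6 : ∫ t in (0 : ℝ)..y, (1 + t ^ 2 : ℝ) = y + y ^ 3 / 3 := by
    rw [intervalIntegral.integral_add (by simp) (by simp)]
    simp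
    norm_num
  rw [h6] at h5
  have h7 : 0 < y ^ 3 / 3 := by positivity
  nlinarith

/-- The multiplier bound at every fixed point. -/
lemma bound {n : ℕ} (hn : 10 ≤ n) {ξ : ℂ} {J : ℝ} (hJ : (P n).eval 1 = (J : ℂ))
    (hfix : (P n).eval ξ = J * ξ) (hJ0 : 1 / (n + 1 : ℝ) ≤ J) (hJ1 : J ≤ 1) :
    ‖1 - ξ ^ 2‖ ^ n / J < 19 / 20 * (2 * n + 1) := by
  have hJpos : 0 < J := lt_of_lt_of_le (by positivity) hJ0
  -- reduction to nonnegative real part
  wlog hx : 0 ≤ ξ.re generalizing ξ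
  · have h1 := this (ξ := -ξ) (by rw [eval_neg, hfix]; ring) (by
      rw [Complex.neg_re]; linarith)
    simpa using h1
  wlog hy : 0 ≤ ξ.im generalizing ξ
  · have h1 := this (ξ := (starRingEnd ℂ) ξ) (by rw [eval_conj, hfix]; simp) (by simpa using hx)
      (by rw [Complex.conj_im]; linarith)
    have h2 : 1 - (starRingEnd ℂ) ξ ^ 2 = (starRingEnd ℂ) (1 - ξ ^ 2) := by simp
    rw [h2, Complex.norm_conj] at h1
    exact h1
  rcases eq_or_lt_of_le hx with h | h
  · have h0 := imaginary (by omega) h.symm hy hfix hJ1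
    rw [h0]
    have h3 : (1 : ℂ) - 0 ^ 2 = 1 := by ring
    rw [h3, norm_one, one_pow]
    have h4 : 1 / J ≤ n + 1 := by
      rw [div_le_iff₀ hJpos]
      rw [div_le_iff₀ (by positivity)] at hJ0
      linarith
    have hnR : (10 : ℝ) ≤ n := by exact_mod_cast hn
    linarith
  · exact bound_quadrant hn hJ h hy hfix hJpos hJ1

lemma natDegree_P (n : ℕ) : (P n).natDegree = 2 * n + 1 := by
  have h1 : (derivative (P n)).natDegree = 2 * n := by
    rw [derivative_P, natDegree_pow]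
    have : (1 - X ^ 2 : ℂ[X]).natDegree = 2 := by compute_degree!
    rw [this, mul_comm]
  have h2 : (derivative (P n)).natDegree = (P n).natDegree - 1 := natDegree_derivative (P n)
  have h3 : (P n).natDegree ≠ 0 := by
    intro h0
    have h4 : derivative (P n) = 0 := by
      rw [natDegree_eq_zero] at h0
      obtain ⟨c, hc⟩ := h0
      rw [← hc, derivative_C]
    rw [derivative_P] at h4
    have h5 := congrArg (Polynomial.eval 0) h4
    simp at h5
  omega

/-- For each `n ≥ 10` a polynomial of degree `2 n + 1` with exactly two critical values all of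
whose fixed points have multiplier of modulus less than `19 / 20` times the degree. -/
lemma exists_poly (n : ℕ) (hn : 10 ≤ n) : ∃ p : ℂ[X], p.natDegree = 2 * n + 1 ∧ cv p = 2 ∧
    Lam p < 19 / 20 * (2 * n + 1) := by
  obtain ⟨J, hJ, hJ0, hJ1⟩ := eval_one n
  have hJpos : 0 < J := lt_of_lt_of_le (by positivity) hJ0
  have hJne : (J : ℂ) ≠ 0 := by exact_mod_cast hJpos.ne'
  set p : ℂ[X] := C ((J : ℂ)⁻¹) * P n with hp
  have hdeg : p.natDegree = 2 * n + 1 := by
    rw [hp, natDegree_C_mul (inv_ne_zero hJne), natDegree_P]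
  have hev : ∀ z, p.eval z = (J : ℂ)⁻¹ * (P n).eval z := by intro z; simp [hp]
  have hder : ∀ z, (derivative p).eval z = (J : ℂ)⁻¹ * (1 - z ^ 2) ^ n := by
    intro z
    rw [hp, derivative_C_mul, derivative_P]
    simp
  refine ⟨p, hdeg, ?_, ?_⟩
  · have hcrit : {z : ℂ | (derivative p).eval z = 0} = {1, -1} := by
      ext z
      change (derivative p).eval z = 0 ↔ z ∈ ({1, -1} : Set ℂ)
      rw [hder]
      simp only [mul_eq_zero, inv_eq_zero, hJne, false_or, Set.mem_insert_iff,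
        Set.mem_singleton_iff]
      rw [pow_eq_zero_iff (by omega : n ≠ 0)]
      constructor
      · intro h
        have h2 : (z - 1) * (z + 1) = 0 := by linear_combination -h
        rcases mul_eq_zero.mp h2 with h3 | h3
        · left; linear_combination h3
        · right; linear_combination h3
      · rintro (h | h) <;> rw [h] <;> ring
    have h1 : p.eval 1 = 1 := by rw [hev, hJ]; field_simp
    have h2 : p.eval (-1) = -1 := by rw [hev, eval_neg, hJ]; field_simp
    rw [cv, hcrit, Set.image_insert_eq, Set.image_singleton, h1, h2]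
    exact Set.ncard_pair (by norm_num)
  · have hfin : {ξ : ℂ | p.eval ξ = ξ}.Finite := by
      have hne : p - X ≠ 0 := by
        intro h0
        have h2 : p = X := sub_eq_zero.mp h0
        rw [h2, natDegree_X] at hdeg
        omega
      apply (p - X).rootSet_finite ℂ |>.subset
      intro ξ hξ
      rw [mem_rootSet]
      refine ⟨hne, ?_⟩
      have : p.eval ξ = ξ := hξ
      simp [this]
    have hset : {r : ℝ | ∃ ξ : ℂ, p.eval ξ = ξ ∧ r = ‖(derivative p).eval ξ‖} =
        (fun ξ => ‖(derivative p).eval ξ‖) '' {ξ : ℂ | p.eval ξ = ξ} := by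
      ext r
      constructor
      · rintro ⟨ξ, h1, h2⟩; exact ⟨ξ, h1, h2.symm⟩
      · rintro ⟨ξ, h1, h2⟩; exact ⟨ξ, h1, h2.symm⟩
    rw [Lam, hset]
    have hnon : ((fun ξ => ‖(derivative p).eval ξ‖) '' {ξ : ℂ | p.eval ξ = ξ}).Nonempty :=
      ⟨_, 0, by change p.eval 0 = 0; rw [hev, eval_zero, mul_zero], rfl⟩
    rw [(hfin.image _).csSup_lt_iff hnon]
    rintro r ⟨ξ, hξ, rfl⟩
    have hξ' : p.eval ξ = ξ := hξ
    have h3 : (P n).eval ξ = J * ξ := by
      rw [hev] at hξ'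
      field_simp at hξ'
      linear_combination hξ'
    have h4 := bound hn hJ h3 hJ0 hJ1
    change ‖(derivative p).eval ξ‖ < _
    rw [hder, norm_mul, norm_inv, norm_pow, Complex.norm_real, Real.norm_of_nonneg hJpos.le]
    rw [div_eq_inv_mul] at h4
    exact h4

/-- The negation of the posed statement, with polynomials having exactly two critical values. -/
theorem result : ∃ ε : ℝ, 0 < ε ∧ ∀ δ : ℝ, 0 < δ → ∃ p : ℂ[X], 2 ≤ p.natDegree ∧ cv p = 2 ∧
    (cv p : ℝ) < δ * p.natDegree ∧ Lam p < (1 - ε) * p.natDegree := by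
  refine ⟨1 / 20, by norm_num, ?_⟩
  intro δ hδ
  obtain ⟨N, hN⟩ := exists_nat_gt (2 / δ)
  obtain ⟨p, h1, h2, h3⟩ := exists_poly (N + 10) (by omega)
  refine ⟨p, by omega, h2, ?_, ?_⟩
  · rw [h2, h1]
    rw [div_lt_iff₀ hδ] at hN
    push_cast
    nlinarith
  · rw [h1]
    push_cast at h3 ⊢
    linarith

end Pool.Agent.Results.MP_b61545_an.TwoCriticalValues
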